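import Pool.Agent.W78.GR.Basic
import Pool.Agent.W194.GA.C
import Pool.Agent.W194.GA.B

/-!
Project GR, task 14: sums over annuli in ideals. Port of `Pool.Agent.W194.GA.A`.
-/

set_option autoImplicit false

namespace Pool.Agent.W402.GR

open Finset Filter
open Pool.Agent.H376R2.MR Pool.Agent.W78.GR
open Pool.Agent.W194.GA (ann_inv)

variable {t c : ℤ} {η : (Qd t c)ˣ}

/-! ### Abel summation over an annulus -/

lemma abel_ann (U : Un t c η) (f : Qd t c → ℂ) (a b : ℕ) (V : ℝ) (ha : 1 ≤ a) (hab : a ≤ b)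
    (hV : ∀ j : ℕ, a ≤ j → j ≤ b → ‖∑ z ∈ ann η a j, f z‖ ≤ V) :
    ‖∑ z ∈ ann η a b, f z / (nm z : ℂ)‖ ≤ V / a := by
  classical
  have hV0 : 0 ≤ V := le_trans (norm_nonneg _) (hV a le_rfl hab)
  have h1 : ∑ z ∈ ann η a b, f z / (nm z : ℂ) =
      (1 / (b : ℂ)) * ∑ z ∈ ann η a b, f z +
        ∑ j ∈ Ico a b, (1 / ((j : ℂ) * (j + 1))) * ∑ z ∈ ann η a j, f z := by
    have h2 : ∀ z ∈ ann η (a : ℝ) (b : ℝ), f z / (nm z : ℂ) = (1 / (b : ℂ)) * f z +
        ∑ j ∈ Ico a b, (1 / ((j : ℂ) * (j + 1))) * (if nm z ≤ j then f z else 0) := by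
      intro z hz
      rw [U.mem_ann] at hz
      have hz2 : a < nm z := by exact_mod_cast hz.2.1
      have hz3 : nm z ≤ b := by exact_mod_cast hz.2.2
      have h3 := ann_inv b (nm z) (nm_pos U.disc hz.1.1) hz3
      rw [div_eq_mul_one_div, h3, mul_add, mul_comm (f z) (1 / (b : ℂ))]
      congr 1
      rw [Finset.mul_sum]
      have h4 : Ico (nm z) b = (Ico a b).filter (fun j => nm z ≤ j) := by
        ext j
        simp only [mem_Ico, mem_filter]
        constructor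
        · rintro ⟨h5, h6⟩
          exact ⟨⟨by omega, h6⟩, h5⟩
        · rintro ⟨⟨_, h6⟩, h5⟩
          exact ⟨h5, h6⟩
      rw [h4, Finset.sum_filter]
      refine Finset.sum_congr rfl (fun j _ => ?_)
      split_ifs
      · ring
      · ring
    rw [Finset.sum_congr rfl h2, Finset.sum_add_distrib, ← Finset.mul_sum]
    congr 1
    rw [Finset.sum_comm]
    refine Finset.sum_congr rfl (fun j hj => ?_)
    rw [← Finset.mul_sum, ← Finset.sum_filter]
    congr 1
    refine Finset.sum_congr ?_ (fun _ _ => rfl)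
    ext z
    rw [mem_filter, U.mem_ann, U.mem_ann]
    rw [mem_Ico] at hj
    have hjb : (j : ℝ) ≤ b := by exact_mod_cast hj.2.le
    constructor
    · rintro ⟨⟨h3, h4, _⟩, h5⟩
      exact ⟨h3, h4, by exact_mod_cast h5⟩
    · rintro ⟨h3, h4, h5⟩
      exact ⟨⟨h3, h4, h5.trans hjb⟩, by exact_mod_cast h5⟩
  rw [h1]
  have hb0 : (0 : ℝ) < b := by
    have : 0 < b := by omega
    exact_mod_cast this
  have h5 : ‖(1 / (b : ℂ)) * ∑ z ∈ ann η a b, f z‖ ≤ (1 / (b : ℝ)) * V := by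
    rw [norm_mul, norm_div, norm_one, Complex.norm_natCast]
    exact mul_le_mul_of_nonneg_left (hV b hab le_rfl) (by positivity)
  have h6 : ‖∑ j ∈ Ico a b, (1 / ((j : ℂ) * (j + 1))) * ∑ z ∈ ann η a j, f z‖ ≤
      (∑ j ∈ Ico a b, 1 / ((j : ℝ) * (j + 1))) * V := by
    rw [Finset.sum_mul]
    refine (norm_sum_le _ _).trans (Finset.sum_le_sum (fun j hj => ?_))
    rw [mem_Ico] at hj
    rw [norm_mul, norm_div, norm_one, norm_mul, Complex.norm_natCast]
    have h7 : ‖(j : ℂ) + 1‖ = (j : ℝ) + 1 := by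
      have : (j : ℂ) + 1 = ((j + 1 : ℕ) : ℂ) := by push_cast; ring
      rw [this, Complex.norm_natCast]
      push_cast; ring
    rw [h7]
    exact mul_le_mul_of_nonneg_left (hV j hj.1 hj.2.le) (by positivity)
  have h8 : (1 / (a : ℝ)) = 1 / (b : ℝ) + ∑ j ∈ Ico a b, 1 / ((j : ℝ) * (j + 1)) := by
    have := ann_inv b a ha hab
    have h9 : ((1 / (a : ℝ) : ℝ) : ℂ) =
        ((1 / (b : ℝ) + ∑ j ∈ Ico a b, 1 / ((j : ℝ) * (j + 1)) : ℝ) : ℂ) := by
      push_cast
      exact this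
    exact_mod_cast h9
  calc _ ≤ (1 / (b : ℝ)) * V + (∑ j ∈ Ico a b, 1 / ((j : ℝ) * (j + 1))) * V :=
        (norm_add_le _ _).trans (add_le_add h5 h6)
    _ = V / a := by rw [← add_mul, ← h8]; ring

/-- an annulus depends on the integer parts of the radii only -/
lemma ann_floor (U : Un t c η) {A B : ℝ} (hA : 0 ≤ A) (hB : 0 ≤ B) :
    ann η A B = ann η ((⌊A⌋₊ : ℕ) : ℝ) ((⌊B⌋₊ : ℕ) : ℝ) := by
  ext z
  rw [U.mem_ann, U.mem_ann]
  refine and_congr_right (fun _ => and_congr ?_ ?_)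
  · rw [Nat.cast_lt]
    exact (Nat.floor_lt hA).symm
  · rw [Nat.cast_le]
    exact (Nat.le_floor_iff hB).symm

/-- sums over an annulus as differences of sums over discs -/
lemma sum_ann (U : Un t c η) (f : Qd t c → ℂ) {A B : ℝ} (hAB : A ≤ B) :
    ∑ z ∈ ann η A B, f z = ∑ z ∈ ball η B, f z - ∑ z ∈ ball η A, f z := by
  classical
  have h : ball η B = ann η A B ∪ ball η A := by
    ext z
    rw [mem_union, U.mem_ann, U.mem_ball, U.mem_ball]
    constructor
    · rintro ⟨h1, h2⟩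
      by_cases h3 : (nm z : ℝ) ≤ A
      · exact Or.inr ⟨h1, h3⟩
      · exact Or.inl ⟨h1, not_le.1 h3, h2⟩
    · rintro (⟨h1, _, h2⟩ | ⟨h1, h2⟩)
      · exact ⟨h1, h2⟩
      · exact ⟨h1, h2.trans hAB⟩
  have hd : Disjoint (ann η A B) (ball η A) := by
    rw [Finset.disjoint_left]
    intro z h1 h2
    rw [U.mem_ann] at h1
    rw [U.mem_ball] at h2
    linarith [h1.2.1, h2.2]
  rw [h, Finset.sum_union hd]
  ring

/-- angular sums over an annulus in an ideal with the weight `1/N z` -/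
theorem angi_ann (U : Un t c η) (h : S_ANGI t c η) (M : ℕ) : ∃ ε : ℝ, 0 < ε ∧ ∃ C : ℝ, 0 < C ∧
    ∀ (A B : ℝ) (m : ℤ) (d : ℕ) (r : ℤ), 1 ≤ d → (d : ℤ) ∣ r ^ 2 - t * r + c → 2 * d ≤ A →
    A ≤ B → B ≤ Real.exp 2 * A → m ≠ 0 → |(m : ℝ)| ≤ (A / (2 * d)) ^ M →
    ‖∑ z ∈ (ann η A B).filter (lat d r), ps η m z / (nm z : ℂ)‖ ≤
      C * (A / d) ^ (-ε) / d := by
  obtain ⟨ε, hε1, hε2, C₀, hC₀, hang⟩ := h M
  refine ⟨ε, hε1, 4 * C₀ * Real.exp 2, by positivity,
    fun A B m d r hd hr hA hAB hB hm hmA => ?_⟩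
  have hd1 : (1 : ℝ) ≤ d := by exact_mod_cast hd
  have hd0 : (0 : ℝ) < d := by linarith
  have hA2 : 2 ≤ A := by linarith
  have hA0 : 0 < A := by linarith
  have hB0 : 0 < B := by linarith
  rw [ann_floor U hA0.le hB0.le]
  set a : ℕ := ⌊A⌋₊ with ha
  set b : ℕ := ⌊B⌋₊ with hb
  have ha1 : 1 ≤ a := Nat.le_floor (by push_cast; linarith)
  have hab : a ≤ b := Nat.floor_le_floor hAB
  have haA : A / 2 ≤ a := by
    have := Nat.lt_floor_add_one A
    rw [← ha] at this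
    linarith
  have hbB : (b : ℝ) ≤ B := Nat.floor_le hB0.le
  have hball : ∀ j : ℕ, a ≤ j → j ≤ b →
      ‖∑ z ∈ (ball η (j : ℝ)).filter (lat d r), ps η m z‖ ≤ C₀ * (B / d) ^ (1 - ε) := by
    intro j hj1 hj2
    have haj : (a : ℝ) ≤ j := by exact_mod_cast hj1
    have hdj : (d : ℝ) ≤ j := by linarith
    have hjb : (j : ℝ) ≤ B := by
      have : (j : ℝ) ≤ b := by exact_mod_cast hj2
      linarith
    have h1 : |(m : ℝ)| ≤ ((j : ℝ) / d) ^ M := by
      refine hmA.trans (pow_le_pow_left₀ (by positivity) ?_ M)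
      rw [div_le_div_iff₀ (by positivity) hd0]
      nlinarith
    refine (hang j m d r hd hr hdj hm h1).trans (mul_le_mul_of_nonneg_left ?_ hC₀.le)
    exact Real.rpow_le_rpow (by positivity) (div_le_div_of_nonneg_right hjb hd0.le) (by linarith)
  have hV : ∀ j : ℕ, a ≤ j → j ≤ b →
      ‖∑ z ∈ ann η (a : ℝ) j, (if lat d r z then ps η m z else 0)‖ ≤
        2 * (C₀ * (B / d) ^ (1 - ε)) := by
    intro j hj1 hj2
    rw [sum_ann U _ (by exact_mod_cast hj1 : (a : ℝ) ≤ j), ← sum_filter, ← sum_filter]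
    refine (norm_sub_le _ _).trans ?_
    have h1 := hball j hj1 hj2
    have h2 := hball a le_rfl hab
    linarith
  have h0 : ∑ z ∈ (ann η (a : ℝ) b).filter (lat d r), ps η m z / (nm z : ℂ) =
      ∑ z ∈ ann η (a : ℝ) b, (if lat d r z then ps η m z else 0) / (nm z : ℂ) := by
    rw [sum_filter]
    refine sum_congr rfl (fun z _ => ?_)
    split_ifs
    · rfl
    · rw [zero_div]
  rw [h0]
  refine (abel_ann U (fun z => if lat d r z then ps η m z else 0) a b _ ha1 hab hV).trans ?_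
  have ha0 : (0 : ℝ) < a := by exact_mod_cast ha1
  have h1 : (B / d) ^ (1 - ε) ≤ Real.exp 2 * (A / d) ^ (1 - ε) := by
    calc (B / d) ^ (1 - ε) ≤ (Real.exp 2 * (A / d)) ^ (1 - ε) := by
          refine Real.rpow_le_rpow (by positivity) ?_ (by linarith)
          rw [← mul_div_assoc]
          exact div_le_div_of_nonneg_right hB hd0.le
      _ = Real.exp 2 ^ (1 - ε) * (A / d) ^ (1 - ε) :=
          Real.mul_rpow (Real.exp_pos _).le (by positivity)
      _ ≤ Real.exp 2 ^ (1 : ℝ) * (A / d) ^ (1 - ε) := by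
          refine mul_le_mul_of_nonneg_right ?_ (Real.rpow_nonneg (by positivity) _)
          refine Real.rpow_le_rpow_of_exponent_le ?_ (by linarith)
          exact Real.one_le_exp (by norm_num)
      _ = _ := by rw [Real.rpow_one]
  have h2 : (A / d) ^ (1 - ε) = (A / d) * (A / d) ^ (-ε) := by
    rw [sub_eq_add_neg, Real.rpow_add (by positivity), Real.rpow_one]
  have h3 : 0 ≤ (A / d) ^ (-ε) := Real.rpow_nonneg (by positivity) _
  rw [div_le_div_iff₀ ha0 hd0]
  calc 2 * (C₀ * (B / d) ^ (1 - ε)) * d ≤ 2 * (C₀ * (Real.exp 2 * (A / d) ^ (1 - ε))) * d := by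
        gcongr
    _ = 4 * C₀ * Real.exp 2 * (A / d) ^ (-ε) * (A / 2) := by
        rw [h2]
        field_simp
        ring
    _ ≤ 4 * C₀ * Real.exp 2 * (A / d) ^ (-ε) * a :=
        mul_le_mul_of_nonneg_left haA (by positivity)

/-! ### The Fejer weight -/

/-- the Fejer weight at `z` -/
noncomputable def FF (η : (Qd t c)ˣ) (R : ℕ) (k : ℤ) (φ : ℝ) (z : Qd t c) : ℝ :=
  FR R (k * ang η z + φ) / (nm z : ℝ)

lemma FF_nonneg (R : ℕ) (k : ℤ) (φ : ℝ) (z : Qd t c) : 0 ≤ FF η R k φ z :=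
  div_nonneg (Fj_nonneg R _) (Nat.cast_nonneg _)

lemma ang_natCast_mul (U : Un t c η) {n : ℕ} (hn : 1 ≤ n) {z : Qd t c} (hz : tp z) :
    ang η ((n : Qd t c) * z) = ang η z := by
  rw [ang_mul U.disc (tp_natCast hn) hz, ang_natCast hn, zero_add]

lemma FF_natCast_mul (U : Un t c η) (R : ℕ) (k : ℤ) (φ : ℝ) {n : ℕ} (hn : 1 ≤ n)
    {z : Qd t c} (hz : tp z) :
    FF η R k φ ((n : Qd t c) * z) = FF η R k φ z / (n : ℝ) ^ 2 := by
  unfold FF
  rw [ang_natCast_mul U hn hz, nm_mul, nm_natCast]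
  push_cast
  rw [div_div, mul_comm ((n : ℝ) ^ 2)]

/-- the sum of the Fejer weight over an annulus in an ideal -/
theorem FF_ann (U : Un t c η) (A B : ℝ) (R : ℕ) (hR : 1 ≤ R) (k : ℤ) (φ : ℝ) (d : ℕ) (r : ℤ)
    (ρ E0 E1 : ℝ) (hE1 : 0 ≤ E1)
    (h0 : |∑ z ∈ (ann η A B).filter (lat d r), 1 / (nm z : ℝ) - ρ| ≤ E0)
    (h1 : ∀ m ∈ FK R, m ≠ 0 →
      ‖∑ z ∈ (ann η A B).filter (lat d r), ps η (m * k) z / (nm z : ℂ)‖ ≤ E1) :
    |∑ z ∈ (ann η A B).filter (lat d r), FF η R k φ z - ρ| ≤ E0 + 2 * R * E1 := by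
  classical
  have hRpos : (0 : ℝ) < R := by exact_mod_cast hR
  set co : ℤ → ℝ := fun m => 1 - |(m : ℝ)| / R with hc
  have hc0 : ∀ m ∈ FK R, 0 ≤ co m ∧ co m ≤ 1 := by
    intro m hm
    unfold FK at hm
    rw [Finset.mem_Ioo] at hm
    have h1 : |(m : ℝ)| ≤ R := by
      rw [abs_le]
      constructor
      · have := hm.1.le
        exact_mod_cast this
      · have := hm.2.le
        exact_mod_cast this
    refine ⟨?_, ?_⟩
    · simp only [hc, sub_nonneg]
      rw [div_le_one hRpos]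
      exact h1
    · simp only [hc, sub_le_self_iff]
      positivity
  set S : ℤ → ℂ := fun m => ∑ z ∈ (ann η A B).filter (lat d r), ps η (m * k) z / (nm z : ℂ) with hS
  -- the expansion
  have hexp : ∑ z ∈ (ann η A B).filter (lat d r), FF η R k φ z =
      ∑ m ∈ FK R, co m * (er m φ * S m).re := by
    have h4 : ∀ z ∈ (ann η A B).filter (lat d r), FF η R k φ z =
        ∑ m ∈ FK R, co m * (er m φ * (ps η (m * k) z / (nm z : ℂ))).re := by
      intro z hz
      rw [mem_filter, U.mem_ann] at hz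
      unfold FF FR
      rw [Finset.sum_div]
      refine Finset.sum_congr rfl (fun m _ => ?_)
      have h5 : er m φ * (ps η (m * k) z / (nm z : ℂ)) =
          Complex.exp (((m * (k * ang η z + φ) : ℝ) : ℂ) * Complex.I) / ((nm z : ℕ) : ℂ) := by
        rw [← mul_div_assoc]
        unfold er ps
        rw [← Complex.exp_add]
        congr 2
        push_cast
        ring
      rw [h5, Complex.div_natCast_re, Complex.exp_ofReal_mul_I_re]
      simp only [hc]
      ring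
    rw [Finset.sum_congr rfl h4, Finset.sum_comm]
    refine Finset.sum_congr rfl (fun m _ => ?_)
    rw [← Finset.mul_sum]
    congr 1
    rw [hS]
    simp only
    rw [Finset.mul_sum, Complex.re_sum]
  have h0mem : (0 : ℤ) ∈ FK R := by
    unfold FK
    rw [mem_Ioo]
    constructor
    · have : (1 : ℤ) ≤ R := by exact_mod_cast hR
      omega
    · exact_mod_cast hR
  have hzero : co 0 * (er ((0 : ℤ) : ℝ) φ * S 0).re =
      ∑ z ∈ (ann η A B).filter (lat d r), 1 / (nm z : ℝ) := by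
    have h2 : co 0 = 1 := by simp [hc]
    have h3 : er ((0 : ℤ) : ℝ) φ = 1 := by
      unfold er
      simp
    have h4 : S 0 = ((∑ z ∈ (ann η A B).filter (lat d r), 1 / (nm z : ℝ) : ℝ) : ℂ) := by
      rw [hS]
      simp
    rw [h2, h3, h4, one_mul, one_mul, Complex.ofReal_re]
  rw [hexp, ← Finset.add_sum_erase _ _ h0mem]
  have hb1 : |∑ m ∈ (FK R).erase 0, co m * (er m φ * S m).re| ≤ 2 * R * E1 := by
    refine (Finset.abs_sum_le_sum_abs _ _).trans ?_
    have h2 : ∀ m ∈ (FK R).erase 0, |co m * (er m φ * S m).re| ≤ E1 := by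
      intro m hm
      rw [mem_erase] at hm
      have h3 := h1 m hm.2 hm.1
      have h4 := Complex.abs_re_le_norm (er m φ * S m)
      rw [norm_mul, sel_aux_er_norm, one_mul] at h4
      have hc1 : |co m| ≤ 1 := by
        rw [abs_of_nonneg (hc0 m hm.2).1]
        exact (hc0 m hm.2).2
      rw [abs_mul]
      calc |co m| * |(er m φ * S m).re| ≤ 1 * E1 :=
            mul_le_mul hc1 (h4.trans h3) (abs_nonneg _) zero_le_one
        _ = E1 := one_mul _
    refine (Finset.sum_le_sum h2).trans ?_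
    rw [Finset.sum_const, nsmul_eq_mul]
    have h6 : (((FK R).erase 0).card : ℝ) ≤ 2 * R := by
      refine le_trans ?_ (sel_aux_card R)
      exact_mod_cast Finset.card_le_card (Finset.erase_subset _ _)
    exact mul_le_mul_of_nonneg_right h6 hE1
  rw [hzero]
  have h3 : (∑ z ∈ (ann η A B).filter (lat d r), 1 / (nm z : ℝ)) +
      ∑ m ∈ (FK R).erase 0, co m * (er m φ * S m).re - ρ =
      ((∑ z ∈ (ann η A B).filter (lat d r), 1 / (nm z : ℝ)) - ρ) +
      ∑ m ∈ (FK R).erase 0, co m * (er m φ * S m).re := by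
    ring
  rw [h3]
  exact (abs_add_le _ _).trans (add_le_add h0 hb1)

end Pool.Agent.W402.GR
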