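import Pool.Agent.W402.GR.C
import Pool.Agent.W194.GA.Sele

/-!
Project GR, task 14: the sieve bound for the elements in a cell.
Port of `Pool.Agent.W194.GA.Sele`.
-/

set_option autoImplicit false

namespace Pool.Agent.W402.GR

open Finset Filter
open Pool.Agent.H376R2.MR Pool.Agent.W78.GR
open Pool.Agent.W194.GA (hh hh_nonneg sum_lcm_hh lcm_squarefree Wl Wl_sq ev_small
  dvd_iff_primeFactors prod_three prod_sq)

variable {t c : ℤ} {η : (Qd t c)ˣ}

/-- `FR` is periodic -/
lemma FR_periodic (R : ℕ) (x : ℝ) (n : ℤ) : FR R (x + 2 * Real.pi * n) = FR R x := by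
  unfold FR
  refine Finset.sum_congr rfl (fun r _ => ?_)
  congr 1
  have e : (r : ℝ) * (x + 2 * Real.pi * n) = r * x + ((r * n : ℤ) : ℝ) * (2 * Real.pi) := by
    push_cast
    ring
  rw [e, Real.cos_add_int_mul_two_pi]

lemma FF_rep (U : Un t c η) (R : ℕ) (k : ℤ) (φ : ℝ) {z : Qd t c} (hz : tp z) :
    FF η R k φ (rep η z) = FF η R k φ z := by
  unfold FF
  rw [Un.nm_rep]
  congr 1
  unfold rep
  rw [U.ang_zpow_mul _ hz]
  have e : (k : ℝ) * (ang η z + 2 * Real.pi * (ex η z : ℝ)) + φ =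
      (k * ang η z + φ) + 2 * Real.pi * ((k * ex η z : ℤ) : ℝ) := by
    push_cast
    ring
  rw [e, FR_periodic]

/-- the sieve inequality -/
theorem sel_main (U : Un t c η) {Ap Bp M : ℕ → Prop} {E : ℕ} {ρ : ℕ → ℤ} {ϖ : ℕ → Qd t c}
    (hE : Ele t c Ap Bp M E ρ ϖ) (H v R D : ℕ) (k : ℤ) (φ A B : ℝ) (l : ℕ → ℝ) (hl1 : l 1 = 1)
    (hl : ∀ d, |l d| ≤ 1)
    (hlG : ∀ d, l d ≠ 0 → Squarefree d ∧ ∀ p : ℕ, p.Prime → p ∣ d → Sp t c p) (hD1 : 1 ≤ D)
    (hcell : ∀ m ∈ cellM M H v, (∀ p : ℕ, p.Prime → p ∣ m → D < p) ∧ A < (m : ℝ) ∧ (m : ℝ) ≤ B)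
    (κ Err : ℝ) (hErr : 0 ≤ Err)
    (hY : ∀ L : ℕ, Squarefree L → (∀ p : ℕ, p.Prime → p ∣ L → Sp t c p) → L ≤ D ^ 2 →
      |∑ z ∈ (ann η A B).filter (fun z => L ∣ nm z), FF η R k φ z - κ * gd L| ≤ Err * hh 3 L) :
    ∑ m ∈ cellM M H v, FR R (k * ang η (ϖ m) + φ) / (m : ℝ) ≤
      κ * (∑ d ∈ Icc 1 D, ∑ e ∈ Icc 1 D, l d * l e * gd (Nat.lcm d e)) +
        Err * (1 + Real.log D) ^ 9 := by
  classical
  have hM : ∀ m ∈ cellM M H v, M m := by
    intro m hm
    unfold cellM at hm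
    rw [mem_filter] at hm
    exact hm.2.1
  have hm0 : ∀ m ∈ cellM M H v, m ≠ 0 := by
    intro m hm h0
    obtain ⟨p, q, hp, hq, h1, _, _⟩ := hE.fac m (hM m hm)
    rw [h0] at h1
    have h2 := (hE.prA p hp).1.pos
    have h3 := (hE.prB q hq).1.pos
    have := Nat.mul_pos h2 h3
    omega
  have hstep1 : ∑ m ∈ cellM M H v, FR R (k * ang η (ϖ m) + φ) / (m : ℝ) ≤
      ∑ z ∈ ann η A B, Wl D l (nm z) ^ 2 * FF η R k φ z := by
    have hW : ∀ m ∈ cellM M H v, Wl D l m = 1 := by
      intro m hm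
      unfold Wl
      rw [Finset.sum_eq_single 1]
      · rw [if_pos (one_dvd m), hl1]
      · intro d hd hd1
        rw [mem_Icc] at hd
        by_cases hdm : d ∣ m
        · exfalso
          obtain ⟨p, hp, hpd⟩ := Nat.exists_prime_and_dvd hd1
          have h1 := (hcell m hm).1 p hp (hpd.trans hdm)
          have h2 := Nat.le_of_dvd (by omega) hpd
          omega
        · rw [if_neg hdm]
      · intro h
        exact absurd (Finset.mem_Icc.2 ⟨le_refl 1, hD1⟩) h
    have hinj : Set.InjOn (fun m => rep η (ϖ m)) (↑(cellM M H v) : Set ℕ) := by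
      intro p hp q hq h
      have h1 := (hE.elt p (hM p hp)).1
      have h2 := (hE.elt q (hM q hq)).1
      have h3 : rep η (ϖ p) = rep η (ϖ q) := h
      rw [← h1, ← h2, ← Un.nm_rep (η := η) (ϖ p), ← Un.nm_rep (η := η) (ϖ q), h3]
    have h1 : ∑ m ∈ cellM M H v, FR R (k * ang η (ϖ m) + φ) / (m : ℝ) =
        ∑ z ∈ (cellM M H v).image (fun m => rep η (ϖ m)), Wl D l (nm z) ^ 2 * FF η R k φ z := by
      rw [Finset.sum_image hinj]
      refine Finset.sum_congr rfl (fun m hm => ?_)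
      obtain ⟨h2, -, h3⟩ := hE.elt m (hM m hm)
      rw [FF_rep U R k φ h3, Un.nm_rep]
      unfold FF
      rw [h2, hW m hm]
      ring
    rw [h1]
    refine Finset.sum_le_sum_of_subset_of_nonneg ?_ (fun z _ _ => ?_)
    · intro z hz
      rw [mem_image] at hz
      obtain ⟨m, hm, rfl⟩ := hz
      obtain ⟨h2, -, h3⟩ := hE.elt m (hM m hm)
      rw [U.mem_ann, Un.nm_rep, h2]
      exact ⟨U.rep_fd h3, (hcell m hm).2.1, (hcell m hm).2.2⟩
    · exact mul_nonneg (sq_nonneg _) (FF_nonneg _ _ _ _)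
  set P : Finset (ℕ × ℕ) := Icc 1 D ×ˢ Icc 1 D with hP
  set Y : ℕ → ℝ := fun L => ∑ z ∈ (ann η A B).filter (fun z => L ∣ nm z), FF η R k φ z with hYdef
  have hstep2 : ∑ z ∈ ann η A B, Wl D l (nm z) ^ 2 * FF η R k φ z =
      ∑ x ∈ P, l x.1 * l x.2 * Y (Nat.lcm x.1 x.2) := by
    have h1 : ∀ z ∈ ann η A B, Wl D l (nm z) ^ 2 * FF η R k φ z =
        ∑ x ∈ P, l x.1 * l x.2 * (if Nat.lcm x.1 x.2 ∣ nm z then FF η R k φ z else 0) := by
      intro z _
      rw [Wl_sq D l, Finset.sum_mul]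
      refine Finset.sum_congr rfl (fun x _ => ?_)
      split_ifs <;> ring
    rw [Finset.sum_congr rfl h1, Finset.sum_comm]
    refine Finset.sum_congr rfl (fun x _ => ?_)
    rw [← Finset.mul_sum, ← Finset.sum_filter]
  have h30 : (0 : ℝ) ≤ 3 := by norm_num
  have hstep3 : ∑ x ∈ P, l x.1 * l x.2 * Y (Nat.lcm x.1 x.2) ≤
      ∑ x ∈ P, (κ * (l x.1 * l x.2 * gd (Nat.lcm x.1 x.2)) +
        (if Squarefree x.1 ∧ Squarefree x.2 then Err * hh 3 (Nat.lcm x.1 x.2) else 0)) := by
    refine Finset.sum_le_sum (fun x hx => ?_)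
    rw [hP, mem_product, mem_Icc, mem_Icc] at hx
    have hr0 : 0 ≤ (if Squarefree x.1 ∧ Squarefree x.2 then Err * hh 3 (Nat.lcm x.1 x.2)
        else 0) := by
      split_ifs
      · exact mul_nonneg hErr (hh_nonneg h30 _)
      · exact le_rfl
    by_cases h1 : l x.1 = 0
    · rw [h1]
      simpa using hr0
    by_cases h2 : l x.2 = 0
    · rw [h2]
      simpa using hr0
    obtain ⟨g1, g2⟩ := hlG x.1 h1
    obtain ⟨g3, g4⟩ := hlG x.2 h2
    rw [if_pos ⟨g1, g3⟩]
    have hL1 := lcm_squarefree g1 g3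
    have hL2 : ∀ p : ℕ, p.Prime → p ∣ Nat.lcm x.1 x.2 → Sp t c p := by
      intro p hp hpd
      have h3 : p ∣ x.1 * x.2 := hpd.trans (Nat.lcm_dvd_mul _ _)
      rcases hp.dvd_mul.1 h3 with h | h
      · exact g2 p hp h
      · exact g4 p hp h
    have hL3 : Nat.lcm x.1 x.2 ≤ D ^ 2 := by
      refine le_trans (Nat.lcm_le_mul (by omega) (by omega)) ?_
      rw [sq]
      exact Nat.mul_le_mul hx.1.2 hx.2.2
    have h3 := hY _ hL1 hL2 hL3
    have h4 : |l x.1 * l x.2| ≤ 1 := by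
      rw [abs_mul]
      exact mul_le_one₀ (hl _) (abs_nonneg _) (hl _)
    have h5 : l x.1 * l x.2 * (Y (Nat.lcm x.1 x.2) - κ * gd (Nat.lcm x.1 x.2)) ≤
        Err * hh 3 (Nat.lcm x.1 x.2) := by
      refine le_trans (le_abs_self _) ?_
      rw [abs_mul]
      calc |l x.1 * l x.2| * |Y (Nat.lcm x.1 x.2) - κ * gd (Nat.lcm x.1 x.2)|
          ≤ 1 * |Y (Nat.lcm x.1 x.2) - κ * gd (Nat.lcm x.1 x.2)| :=
            mul_le_mul_of_nonneg_right h4 (abs_nonneg _)
        _ ≤ _ := by rw [one_mul]; exact h3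
    have h6 : l x.1 * l x.2 * Y (Nat.lcm x.1 x.2) =
        κ * (l x.1 * l x.2 * gd (Nat.lcm x.1 x.2)) +
          l x.1 * l x.2 * (Y (Nat.lcm x.1 x.2) - κ * gd (Nat.lcm x.1 x.2)) := by ring
    rw [h6]
    linarith
  have hstep4 : ∑ x ∈ P, (κ * (l x.1 * l x.2 * gd (Nat.lcm x.1 x.2)) +
        (if Squarefree x.1 ∧ Squarefree x.2 then Err * hh 3 (Nat.lcm x.1 x.2) else 0)) =
      κ * (∑ d ∈ Icc 1 D, ∑ e ∈ Icc 1 D, l d * l e * gd (Nat.lcm d e)) +
        Err * ∑ x ∈ P.filter (fun x => Squarefree x.1 ∧ Squarefree x.2),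
          hh 3 (Nat.lcm x.1 x.2) := by
    rw [Finset.sum_add_distrib, ← Finset.mul_sum, ← Finset.sum_filter, ← Finset.mul_sum, hP,
      Finset.sum_product]
  calc _ ≤ _ := hstep1
    _ = _ := hstep2
    _ ≤ _ := hstep3
    _ = _ := hstep4
    _ ≤ _ := by
        have h1 := mul_le_mul_of_nonneg_left (sum_lcm_hh D) hErr
        linarith

theorem sele_of (U : Un t c η) :
    S_ANGI t c η → S_LAT t c η → S_SELB t c → S_SELE t c η := by
  classical
  intro hANG hLAT hSELB Ap Bp M E ρ ϖ hE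
  obtain ⟨C₂, hC₂, hsel⟩ := hSELB
  obtain ⟨C₀, hC₀, -, hlat⟩ := hLAT
  have hkap : 0 ≤ kap η := by
    unfold kap
    have := U.rg_pos
    positivity
  set kk : ℝ := 64 * ((E : ℝ) + 1) with hkk
  have hkk1 : 128 ≤ kk := by
    have : (1 : ℝ) ≤ E := by exact_mod_cast hE.pos
    rw [hkk]; linarith
  have hkk0 : 0 < kk := by linarith
  refine ⟨4 * kap η * C₂ * kk + 1, by positivity, fun M' H R hH hR => ?_⟩
  have hHpos : (0 : ℝ) < H := by exact_mod_cast hH
  have hH1 : (1 : ℝ) ≤ H := by exact_mod_cast hH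
  have hRpos : (0 : ℝ) < R := by exact_mod_cast hR
  obtain ⟨ε, hε, C₁, hC₁, hann⟩ := angi_ann U hANG (4 * M' + 4)
  set δ : ℝ := min (1 / (8 * H)) (ε / (2 * H)) with hδ
  have hδ0 : 0 < δ := lt_min (by positivity) (by positivity)
  have hδ1 : δ ≤ 1 / (8 * H) := min_le_left _ _
  have hδ2 : δ ≤ ε / (2 * H) := min_le_right _ _
  have hev1 := ev_small (C₀ + 2 * R * C₁) δ (by positivity) hδ0
  have hev2 : ∀ᶠ v : ℕ in atTop, (R : ℝ) ≤ Real.exp ((v : ℝ) / H) := by
    have h1 : Tendsto (fun v : ℕ => Real.exp ((v : ℝ) / H)) atTop atTop :=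
      Real.tendsto_exp_atTop.comp (tendsto_natCast_atTop_atTop.atTop_div_const hHpos)
    exact h1.eventually_ge_atTop _
  have hev3 : ∀ᶠ v : ℕ in atTop, (2 : ℝ) ≤ Real.exp ((v : ℝ) / (kk * H)) := by
    have h1 : Tendsto (fun v : ℕ => Real.exp ((v : ℝ) / (kk * H))) atTop atTop :=
      Real.tendsto_exp_atTop.comp (tendsto_natCast_atTop_atTop.atTop_div_const (by positivity))
    exact h1.eventually_ge_atTop _
  have hev4 : ∀ᶠ v : ℕ in atTop, Real.log 2 ≤ (v : ℝ) / (2 * kk * H) := by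
    have h1 : Tendsto (fun v : ℕ => (v : ℝ) / (2 * kk * H)) atTop atTop :=
      tendsto_natCast_atTop_atTop.atTop_div_const (by positivity)
    exact h1.eventually_ge_atTop _
  obtain ⟨v₀, hv₀⟩ := eventually_atTop.1 (hev1.and (hev2.and (hev3.and (hev4.and
    (eventually_ge_atTop 4)))))
  refine ⟨v₀, fun v hv k hk0 hk φ => ?_⟩
  obtain ⟨h1, h2, h3, h4, h5⟩ := hv₀ v hv
  have hv4 : (4 : ℝ) ≤ v := by exact_mod_cast h5
  have hvpos : (0 : ℝ) < v := by linarith
  set D : ℕ := ⌊Real.exp ((v : ℝ) / (kk * H))⌋₊ with hDdef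
  have hD2 : 2 ≤ D := by
    rw [hDdef]
    exact Nat.le_floor (by exact_mod_cast h3)
  have hDle : (D : ℝ) ≤ Real.exp ((v : ℝ) / (kk * H)) := Nat.floor_le (Real.exp_pos _).le
  have hDge : Real.exp ((v : ℝ) / (kk * H)) / 2 ≤ D := by
    have := Nat.lt_floor_add_one (Real.exp ((v : ℝ) / (kk * H)))
    rw [← hDdef] at this
    linarith
  have hlogD1 : (v : ℝ) / (2 * kk * H) ≤ Real.log D := by
    have h6 := Real.log_le_log (by positivity) hDge
    rw [Real.log_div (Real.exp_pos _).ne' (by norm_num), Real.log_exp] at h6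
    have h7 : (v : ℝ) / (kk * H) = (v : ℝ) / (2 * kk * H) + (v : ℝ) / (2 * kk * H) := by
      field_simp
      norm_num
    linarith
  have hDpos : (0 : ℝ) < D := by
    have : 0 < D := by omega
    exact_mod_cast this
  have hkH1 : 1 ≤ kk * H := by nlinarith
  have hlogD2 : Real.log D ≤ v := by
    have h6 := Real.log_le_log hDpos hDle
    rw [Real.log_exp] at h6
    exact le_trans h6 (div_le_self hvpos.le hkH1)
  have hlogDpos : 0 < Real.log D := lt_of_lt_of_le (by positivity) hlogD1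
  obtain ⟨l, hl1, hl, hlD, hSel0, hSel1⟩ := hsel D hD2
  have hlG : ∀ d, l d ≠ 0 → Squarefree d ∧ ∀ p : ℕ, p.Prime → p ∣ d → Sp t c p :=
    fun d hd => (hlD d hd).2.2
  set A : ℝ := Real.exp (((v : ℝ) - 1) / H) with hA
  set B : ℝ := Real.exp (((v : ℝ) + 1) / H) with hB
  have hcell : ∀ m ∈ cellM M H v, (∀ p : ℕ, p.Prime → p ∣ m → D < p) ∧ A < (m : ℝ) ∧
      (m : ℝ) ≤ B := by
    intro m hm
    unfold cellM at hm
    rw [mem_filter] at hm
    obtain ⟨_, hMm, hlog1, hlog2⟩ := hm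
    obtain ⟨p, q, hp, hq, hpq, hpE, hqE⟩ := hE.fac m hMm
    have hpp := (hE.prA p hp).1
    have hqp := (hE.prB q hq).1
    have hm0 : (0 : ℝ) < m := by
      rw [hpq]
      exact_mod_cast Nat.mul_pos hpp.pos hqp.pos
    have h6 := (Real.le_log_iff_exp_le hm0).1 hlog1
    have h7 := (Real.log_lt_iff_lt_exp hm0).1 hlog2
    have hbig : ∀ x : ℕ, m ≤ x ^ (E + 1) → D < x := by
      intro x hx
      by_contra hcon
      have hxD : x ≤ D := not_lt.1 hcon
      have h8 : (m : ℝ) ≤ (D : ℝ) ^ (E + 1) := by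
        have : m ≤ D ^ (E + 1) := hx.trans (Nat.pow_le_pow_left hxD _)
        exact_mod_cast this
      have h9 : (D : ℝ) ^ (E + 1) ≤ Real.exp ((v : ℝ) / (64 * H)) := by
        calc (D : ℝ) ^ (E + 1) ≤ Real.exp ((v : ℝ) / (kk * H)) ^ (E + 1) :=
              pow_le_pow_left₀ hDpos.le hDle _
          _ = Real.exp ((v : ℝ) / (64 * H)) := by
              rw [← Real.exp_nat_mul]
              congr 1
              rw [hkk]
              push_cast
              field_simp
      have h10 : Real.exp ((v : ℝ) / (64 * H)) < Real.exp ((v : ℝ) / H) := by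
        rw [Real.exp_lt_exp]
        refine div_lt_div_of_pos_left hvpos hHpos ?_
        linarith
      linarith
    have hDp : D < p := by
      apply hbig
      rw [hpq, pow_succ, mul_comm p q]
      exact Nat.mul_le_mul hqE le_rfl
    have hDq : D < q := by
      apply hbig
      rw [hpq, pow_succ]
      exact Nat.mul_le_mul hpE le_rfl
    refine ⟨?_, ?_, h7.le⟩
    · intro x hx hxm
      rw [hpq] at hxm
      rcases hx.dvd_mul.1 hxm with h | h
      · rw [(Nat.prime_dvd_prime_iff_eq hx hpp).1 h]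
        exact hDp
      · rw [(Nat.prime_dvd_prime_iff_eq hx hqp).1 h]
        exact hDq
    · refine lt_of_lt_of_le ?_ h6
      rw [hA, Real.exp_lt_exp]
      exact div_lt_div_of_pos_right (by linarith) hHpos
  set E0 : ℝ := C₀ * Real.exp (-(δ * v)) with hE0
  set E1 : ℝ := C₁ * Real.exp (-(δ * v)) with hE1
  have hlogBA : ∀ q : ℝ, 0 < q → Real.log ((B / q) / (A / q)) = 2 / H := by
    intro q hq
    rw [div_div_div_cancel_right₀ hq.ne', hA, hB, ← Real.exp_sub, Real.log_exp]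
    ring
  have hexp1 : (2 : ℝ) ≤ Real.exp ((v : ℝ) / (4 * H)) := by
    refine h3.trans ?_
    rw [Real.exp_le_exp]
    refine div_le_div_of_nonneg_left hvpos.le (by positivity) ?_
    nlinarith
  have hexp2 : Real.exp ((v : ℝ) / (2 * H)) =
      Real.exp ((v : ℝ) / (4 * H)) * Real.exp ((v : ℝ) / (4 * H)) := by
    rw [← Real.exp_add]
    congr 1
    field_simp
    norm_num
  have hD4 : (D : ℝ) ^ 4 ≤ Real.exp ((v : ℝ) / (32 * H)) := by
    calc (D : ℝ) ^ 4 ≤ Real.exp ((v : ℝ) / (kk * H)) ^ 4 := pow_le_pow_left₀ hDpos.le hDle _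
      _ = Real.exp (4 * ((v : ℝ) / (kk * H))) := by
          rw [← Real.exp_nat_mul]
          norm_num
      _ ≤ Real.exp ((v : ℝ) / (32 * H)) := by
          rw [Real.exp_le_exp]
          have h6 : (v : ℝ) / (kk * H) ≤ (v : ℝ) / (128 * H) :=
            div_le_div_of_nonneg_left hvpos.le (by positivity)
              (mul_le_mul_of_nonneg_right hkk1 hHpos.le)
          have h7 : (v : ℝ) / (32 * H) = 4 * ((v : ℝ) / (128 * H)) := by
            field_simp
            norm_num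
          rw [h7]
          linarith
  -- the base estimate
  have hbase : ∀ (d : ℕ) (r : ℤ) (n : ℕ), 1 ≤ d → 1 ≤ n → Nat.Coprime d n →
      (d : ℤ) ∣ r ^ 2 - t * r + c → (d : ℝ) * (n : ℝ) ^ 2 ≤ (D : ℝ) ^ 4 →
      |∑ z ∈ SS η A B ∅ d r n, FF η R k φ z - (kap η * (2 / H)) / (d * (n : ℝ) ^ 2)| ≤
        (E0 + 2 * R * E1) / (d * (n : ℝ) ^ 2) := by
    intro d r n hd hn hdn hr hQ
    have hd0 : (0 : ℝ) < d := by exact_mod_cast hd
    have hn0 : (0 : ℝ) < n := by exact_mod_cast hn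
    have hn1 : (1 : ℝ) ≤ n := by exact_mod_cast hn
    have hd1 : (1 : ℝ) ≤ d := by exact_mod_cast hd
    have hn2 : (1 : ℝ) ≤ (n : ℝ) ^ 2 := one_le_pow₀ hn1
    have hq0 : (0 : ℝ) < (d : ℝ) * (n : ℝ) ^ 2 := by positivity
    have hqD : (d : ℝ) * (n : ℝ) ^ 2 ≤ Real.exp ((v : ℝ) / (32 * H)) := hQ.trans hD4
    rw [SS_empty U R k φ A B d r n hn hdn]
    set A' : ℝ := A / (n : ℝ) ^ 2 with hA'
    set B' : ℝ := B / (n : ℝ) ^ 2 with hB'
    have hA1 : Real.exp ((v : ℝ) / (2 * H)) ≤ A' / d := by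
      rw [hA', div_div, le_div_iff₀ (by positivity), mul_comm ((n : ℝ) ^ 2)]
      calc Real.exp ((v : ℝ) / (2 * H)) * ((d : ℝ) * (n : ℝ) ^ 2) ≤
            Real.exp ((v : ℝ) / (2 * H)) * Real.exp ((v : ℝ) / (32 * H)) := by gcongr
        _ = Real.exp ((v : ℝ) / (2 * H) + (v : ℝ) / (32 * H)) := by rw [Real.exp_add]
        _ ≤ A := by
            rw [hA, Real.exp_le_exp]
            have h8 : (v : ℝ) / (2 * H) + (v : ℝ) / (32 * H) = (17 * v / 32) / H := by
              field_simp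
              norm_num
            rw [h8]
            exact div_le_div_of_nonneg_right (by linarith) hHpos.le
    have hAdpos : 0 < A' / d := lt_of_lt_of_le (Real.exp_pos _) hA1
    have hA2 : 2 * Real.exp ((v : ℝ) / (4 * H)) ≤ A' / d := by
      refine le_trans ?_ hA1
      rw [hexp2]
      exact mul_le_mul_of_nonneg_right hexp1 (Real.exp_pos _).le
    have hAge : A' / d ≤ A' := by
      refine div_le_self ?_ hd1
      positivity
    have hAexp : Real.exp ((v : ℝ) / (2 * H)) ≤ A' := hA1.trans hAge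
    have hA4 : 4 ≤ A' / d := by linarith
    have hApos : 0 < A' := by linarith
    have h2d : 2 * (d : ℝ) ≤ A' := by
      rw [le_div_iff₀ hd0] at hA4
      linarith
    have hAB : A' ≤ B' := by
      refine div_le_div_of_nonneg_right ?_ (by positivity)
      rw [hA, hB, Real.exp_le_exp]
      exact div_le_div_of_nonneg_right (by linarith) hHpos.le
    have hBA : B' ≤ Real.exp 2 * A' := by
      rw [hA', hB', ← mul_div_assoc]
      refine div_le_div_of_nonneg_right ?_ (by positivity)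
      rw [hA, hB, ← Real.exp_add, Real.exp_le_exp]
      have h7 : ((v : ℝ) + 1) / H = ((v : ℝ) - 1) / H + 2 / H := by ring
      rw [h7]
      have h8 : 2 / (H : ℝ) ≤ 2 := div_le_self (by norm_num) hH1
      linarith
    have hmain : |∑ z ∈ (ann η A' B').filter (lat d r), FF η R k φ z -
        (kap η * (2 / H)) / d| ≤ E0 / d + 2 * R * (E1 / d) := by
      refine FF_ann U A' B' R hR k φ d r ((kap η * (2 / H)) / d) (E0 / d) (E1 / d)
        (by positivity) ?_ ?_
      · have h6 := hlat A' B' d r (by linarith) hAB hd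
        rw [hA', hB', hlogBA _ (by positivity), ← hA', ← hB'] at h6
        have e1 : kap η / d * (2 / H) = (kap η * (2 / H)) / d := by ring
        rw [e1] at h6
        refine h6.trans ?_
        rw [hE0, div_le_div_iff₀ (Real.sqrt_pos.2 hApos) hd0, mul_assoc]
        refine mul_le_mul_of_nonneg_left ?_ hC₀.le
        have h7 : Real.exp ((v : ℝ) / (4 * H)) ≤ Real.sqrt A' := by
          refine Real.le_sqrt_of_sq_le ?_
          rw [sq, ← hexp2]
          exact hAexp
        have hdq : (d : ℝ) ≤ (d : ℝ) * (n : ℝ) ^ 2 := le_mul_of_one_le_right hd0.le hn2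
        calc (d : ℝ) ≤ Real.exp ((v : ℝ) / (32 * H)) := hdq.trans hqD
          _ ≤ Real.exp (-(δ * v)) * Real.exp ((v : ℝ) / (4 * H)) := by
              rw [← Real.exp_add, Real.exp_le_exp]
              have h8 : δ * v ≤ 1 / (8 * H) * v := mul_le_mul_of_nonneg_right hδ1 hvpos.le
              have h9 : (v : ℝ) / (4 * H) = 8 * ((v : ℝ) / (32 * H)) := by
                field_simp
                norm_num
              have h10 : 1 / (8 * (H : ℝ)) * v = 4 * ((v : ℝ) / (32 * H)) := by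
                field_simp
                norm_num
              have h11 : 0 ≤ (v : ℝ) / (32 * H) := by positivity
              linarith
          _ ≤ Real.exp (-(δ * v)) * Real.sqrt A' :=
              mul_le_mul_of_nonneg_left h7 (Real.exp_pos _).le
      · intro m hm hm0
        have hmR : |(m : ℝ)| ≤ R := by
          unfold FK at hm
          rw [Finset.mem_Ioo] at hm
          rw [abs_le]
          constructor
          · have := hm.1.le
            exact_mod_cast this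
          · have := hm.2.le
            exact_mod_cast this
        have h6 := hann A' B' (m * k) d r hd hr h2d hAB hBA (mul_ne_zero hm0 hk0) ?_
        · refine h6.trans ?_
          rw [hE1]
          refine div_le_div_of_nonneg_right ?_ hd0.le
          refine mul_le_mul_of_nonneg_left ?_ hC₁.le
          rw [Real.rpow_neg hAdpos.le]
          have h7 : Real.exp (δ * v) ≤ (A' / d) ^ ε := by
            calc Real.exp (δ * v) ≤ Real.exp ((v : ℝ) / (2 * H) * ε) := by
                  rw [Real.exp_le_exp]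
                  have h7 : δ * v ≤ ε / (2 * H) * v := mul_le_mul_of_nonneg_right hδ2 hvpos.le
                  refine h7.trans (le_of_eq ?_)
                  ring
              _ = Real.exp ((v : ℝ) / (2 * H)) ^ ε := by rw [Real.exp_mul]
              _ ≤ _ := Real.rpow_le_rpow (Real.exp_pos _).le hA1 hε.le
          calc ((A' / d) ^ ε)⁻¹ ≤ (Real.exp (δ * v))⁻¹ := inv_anti₀ (Real.exp_pos _) h7
            _ = _ := by rw [Real.exp_neg]
        · push_cast
          rw [abs_mul]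
          have h7 : Real.exp ((v : ℝ) / (4 * H)) ≤ A' / (2 * d) := by
            have e : A' / (2 * d) = A' / d / 2 := by
              field_simp
            rw [e, le_div_iff₀ (by norm_num : (0 : ℝ) < 2)]
            linarith
          calc |(m : ℝ)| * |(k : ℝ)| ≤ Real.exp ((v : ℝ) / H) * Real.exp (M' * (v : ℝ) / H) :=
                mul_le_mul (le_trans hmR h2) hk (abs_nonneg _) (Real.exp_pos _).le
            _ = Real.exp ((v : ℝ) / (4 * H)) ^ (4 * M' + 4) := by
                rw [← Real.exp_add, ← Real.exp_nat_mul]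
                congr 1
                push_cast
                field_simp
                ring
            _ ≤ _ := pow_le_pow_left₀ (Real.exp_pos _).le h7 _
    have e1 : (∑ z ∈ (ann η A' B').filter (lat d r), FF η R k φ z) / (n : ℝ) ^ 2 -
        kap η * (2 / H) / (d * (n : ℝ) ^ 2) =
        (∑ z ∈ (ann η A' B').filter (lat d r), FF η R k φ z - (kap η * (2 / H)) / d) /
          (n : ℝ) ^ 2 := by
      rw [sub_div, div_div]
    rw [e1, abs_div, abs_of_pos (show (0 : ℝ) < (n : ℝ) ^ 2 by positivity)]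
    have e2 : (E0 + 2 * R * E1) / (d * (n : ℝ) ^ 2) = (E0 / d + 2 * R * (E1 / d)) / (n : ℝ) ^ 2 := by
      field_simp
    rw [e2]
    exact div_le_div_of_nonneg_right hmain (by positivity)
  have hErr0 : 0 ≤ E0 + 2 * R * E1 := by positivity
  have hind := SS_ind (FF η R k φ) A B (kap η * (2 / H)) (E0 + 2 * R * E1) ((D : ℝ) ^ 4) hErr0
    hbase
  have hY : ∀ L : ℕ, Squarefree L → (∀ p : ℕ, p.Prime → p ∣ L → Sp t c p) → L ≤ D ^ 2 →
      |∑ z ∈ (ann η A B).filter (fun z => L ∣ nm z), FF η R k φ z - (kap η * (2 / H)) * gd L| ≤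
        (E0 + 2 * R * E1) * hh 3 L := by
    intro L hL1 hL2 hL3
    have h6 := hind L.primeFactors
      (fun p hp => hL2 p (Nat.prime_of_mem_primeFactors hp) (Nat.dvd_of_mem_primeFactors hp))
      1 0 1 le_rfl le_rfl (Nat.coprime_one_left 1) (by simp)
      (fun p hp => by
        have := (Nat.prime_of_mem_primeFactors hp).one_lt
        refine ⟨?_, ?_⟩ <;> (intro h; have := Nat.le_of_dvd one_pos h; omega))
      (by
        rw [prod_sq hL1]
        have h7 : (L : ℝ) ≤ (D : ℝ) ^ 2 := by exact_mod_cast hL3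
        calc ((1 : ℕ) : ℝ) * ((1 : ℕ) : ℝ) ^ 2 * (L : ℝ) ^ 2 = (L : ℝ) ^ 2 := by norm_num
          _ ≤ ((D : ℝ) ^ 2) ^ 2 := pow_le_pow_left₀ (Nat.cast_nonneg _) h7 2
          _ = (D : ℝ) ^ 4 := by ring)
    rw [prod_three hL1] at h6
    have e1 : SS η A B L.primeFactors 1 0 1 = (ann η A B).filter (fun z => L ∣ nm z) := by
      unfold SS
      refine filter_congr (fun z _ => ?_)
      rw [dvd_iff_primeFactors hL1]
      constructor
      · exact fun h => h.1
      · intro h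
        refine ⟨h, ?_, ?_⟩
        · unfold lat
          simp
        · simp
    have e2 : ((1 : ℕ) : ℝ) * ((1 : ℕ) : ℝ) ^ 2 = 1 := by norm_num
    rw [e1, e2, div_one, div_one] at h6
    exact h6
  have hmain := sel_main U hE H v R D k φ A B l hl1 hl hlG (by omega) hcell (kap η * (2 / H))
    (E0 + 2 * R * E1) hErr0 hY
  refine hmain.trans ?_
  have hp1 : kap η * (2 / H) *
      (∑ d ∈ Icc 1 D, ∑ e ∈ Icc 1 D, l d * l e * gd (Nat.lcm d e)) ≤
      4 * kap η * C₂ * kk / v := by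
    have h7 : C₂ / Real.log D ≤ C₂ / ((v : ℝ) / (2 * kk * H)) :=
      div_le_div_of_nonneg_left (by positivity) (by positivity) hlogD1
    calc _ ≤ kap η * (2 / H) * (C₂ / ((v : ℝ) / (2 * kk * H))) :=
          mul_le_mul_of_nonneg_left (hSel1.trans h7) (by positivity)
      _ = _ := by
          field_simp
          norm_num
  have hp2 : (E0 + 2 * R * E1) * (1 + Real.log D) ^ 9 ≤ 1 / v := by
    refine le_trans ?_ h1
    have h6 : E0 + 2 * R * E1 = (C₀ + 2 * R * C₁) * Real.exp (-(δ * v)) := by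
      rw [hE0, hE1]
      ring
    rw [h6]
    refine mul_le_mul_of_nonneg_left ?_ (by positivity)
    exact pow_le_pow_left₀ (by linarith) (by linarith) 9
  calc _ ≤ 4 * kap η * C₂ * kk / v + 1 / v := add_le_add hp1 hp2
    _ = _ := by ring

end Pool.Agent.W402.GR
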